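import Pool.Agent.Lib.MP_fdd68d_co.Contract
import Pool.Agent.Lib.MP_fdd68d_co.Minors
import Pool.Agent.Lib.MP_fdd68d_co.Transfer

/-!
# Tangential 1-blocks with a simple contraction of rank at most four
-/

namespace Pool.Agent.Results.MP_fdd68d_co.CorankFour

open Module Set
open scoped Matroid
open Pool.Agent.Lib.MP_fdd68d_co

/-- The critical exponent over `K` of (the simplification of) `N` is at most one: in some
representation over `K` some hyperplane misses all nonloops of `N`.  (By the theorem of Crapo and
Rota this does not depend on the representation; this is also proved in `Transfer.lean`.) -/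
def CritLeOne (K : Type*) [Field K] {α : Type*} (N : Matroid α) : Prop :=
  ∃ (n : ℕ) (w : α → (Fin n → K)), Represents K w N ∧
    ∃ f : (Fin n → K) →ₗ[K] K, ∀ e, N.IsNonloop e → f (w e) ≠ 0

/-- Tangential 1-blocks over `K`: finite simple matroids, representable over `K`, with critical
exponent greater than one, all of whose proper minors have critical exponent at most one. -/
structure IsTangentialOneBlock (K : Type*) [Field K] {α : Type*} (M : Matroid α) : Prop where
  finite : M.E.Finite
  simple : ∀ e ∈ M.E, ∀ f ∈ M.E, M.Indep {e, f}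
  representable : ∃ (n : ℕ) (v : α → (Fin n → K)), Represents K v M
  block : ¬ CritLeOne K M
  minor : ∀ N : Matroid α, N <m M → CritLeOne K N

/-- Let `K` be a finite field with `q ≥ 4` elements and `M` a tangential 1-block over `K` which has
a proper flat `F` such that `M / F` is simple and has rank at most four (for `F = ∅`: `M` has rank
at most four). Then `M` has a minor `U_{2,q+1}`, `M(K₄)` or `W³`. -/
theorem result (K : Type*) [Field K] [Fintype K] (hq : 4 ≤ Fintype.card K) {α : Type*}
    (M : Matroid α) (hM : IsTangentialOneBlock K M) (F : Set α) (hFE : F ⊂ M.E)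
    (hFs : ∀ e ∈ M.E \ F, ∀ f ∈ M.E \ F, (M ／ F).Indep {e, f}) (hFr : (M ／ F).eRank ≤ 4) :
    ∃ N : Matroid α, N ≤m M ∧ (IsUTwo (Fintype.card K + 1) N ∨ IsMKFour N ∨ IsWThree N) := by
  classical
  by_contra hcon
  push Not at hcon
  obtain ⟨n, v₀, hv₀⟩ := hM.representable
  -- a spanning representation
  set V : Submodule K (Fin n → K) := Submodule.span K (v₀ '' M.E) with hV
  have hmem : ∀ e ∈ M.E, v₀ e ∈ V := fun e he => Submodule.subset_span ⟨e, he, rfl⟩
  set v : α → V := fun e => if he : e ∈ M.E then ⟨v₀ e, hmem e he⟩ else 0 with hvdef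
  have hvv : ∀ e ∈ M.E, (v e : Fin n → K) = v₀ e := by
    intro e he
    simp only [hvdef, dif_pos he]
  have hv : Represents K v M := by
    intro I
    rw [hv₀]
    refine and_congr_right fun hI => ?_
    have h1 : LinearIndepOn K v₀ I ↔ LinearIndepOn K (V.subtype ∘ v) I :=
      linearIndepOn_congr fun e he => (hvv e (hI he)).symm
    rw [h1]
    exact V.subtype.linearIndepOn_iff_of_injOn (V.injective_subtype.injOn)
  set S : Finset V := hM.finite.toFinset.image v with hSdef
  have hS : (S : Set V) = v '' M.E := by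
    rw [hSdef, Finset.coe_image, Set.Finite.coe_toFinset]
  have hspan : Submodule.span K (S : Set V) = ⊤ := by
    apply Submodule.map_injective_of_injective V.injective_subtype
    rw [Submodule.map_subtype_top, Submodule.map_span, hS, ← image_comp]
    have h1 : (V.subtype ∘ v) '' M.E = v₀ '' M.E := image_congr fun e he => hvv e he
    rw [h1]
  have hnonloop : ∀ e, M.IsNonloop e → e ∈ M.E := fun e he => he.mem_ground
  -- no functional avoids all points
  have hblock : ∀ f : V →ₗ[K] K, ∃ s ∈ S, f s = 0 := by
    intro f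
    by_contra hno
    push Not at hno
    apply hM.block
    have e : V ≃ₗ[K] (Fin (finrank K V) → K) := LinearEquiv.ofFinrankEq _ _ (by
      rw [finrank_fin_fun])
    refine ⟨finrank K V, e ∘ v, ?_, f.comp e.symm.toLinearMap, ?_⟩
    · intro I
      rw [hv]
      refine and_congr_right fun hI => ?_
      exact (e.toLinearMap.linearIndepOn_iff_of_injOn e.injective.injOn).symm
    · intro a ha
      rw [LinearMap.comp_apply, Function.comp_apply, LinearEquiv.coe_coe, e.symm_apply_apply]
      apply hno
      rw [← Finset.mem_coe, hS]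
      exact ⟨a, hnonloop a ha, rfl⟩
  -- the points in a hyperplane are affine
  have haff : ∀ H : Submodule K V, finrank K (V ⧸ H) = 1 →
      ∃ f : V →ₗ[K] K, ∀ s ∈ S, s ∈ H → f s ≠ 0 := by
    intro H hH
    set E' : Set α := {e ∈ M.E | v e ∈ H} with hE'
    have hE'E : E' ⊆ M.E := fun e he => he.1
    have hne : E' ≠ M.E := by
      intro heq
      have h1 : Submodule.span K (S : Set V) ≤ H := by
        rw [Submodule.span_le, hS]
        rintro _ ⟨e, he, rfl⟩
        rw [← heq] at he
        exact he.2
      rw [hspan, top_le_iff] at h1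
      rw [h1] at hH
      have := Submodule.finrank_quotient_add_finrank (⊤ : Submodule K V)
      rw [finrank_top] at this
      omega
    have hstrict : M ＼ (M.E \ E') <m M := by
      rw [Matroid.isStrictMinor_iff_isMinor_ssubset]
      refine ⟨⟨∅, M.E \ E', by simp⟩, ?_⟩
      rw [Matroid.delete_ground, sdiff_sdiff_cancel_left hE'E]
      exact hE'E.ssubset_of_ne hne
    obtain ⟨m, w, hw, g, hg⟩ := hM.minor _ hstrict
    have hNE : (M ＼ (M.E \ E')).E = E' := by
      rw [Matroid.delete_ground, sdiff_sdiff_cancel_left hE'E]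
    have hIff : ∀ I ⊆ E', LinearIndepOn K v I ↔ LinearIndepOn K w I := by
      intro I hI
      have h1 : M.Indep I ↔ (M ＼ (M.E \ E')).Indep I := by
        rw [Matroid.delete_indep_iff]
        refine ⟨fun h => ⟨h, ?_⟩, fun h => h.1⟩
        rw [disjoint_left]
        exact fun e he h2 => h2.2 (hI he)
      rw [hv, hw, hNE] at h1
      simpa [hI, hI.trans hE'E] using h1
    obtain ⟨f, hf⟩ := nowhereZero_transfer (hM.finite.subset hE'E) v w hIff ⟨g, fun e he => by
      apply hg
      rw [← Matroid.indep_singleton, Matroid.delete_indep_iff]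
      refine ⟨(hM.simple e he.1 e he.1).subset (by simp), ?_⟩
      rw [disjoint_singleton_left]
      exact fun h2 => h2.2 he⟩
    refine ⟨f, fun s hs hsH => ?_⟩
    rw [← Finset.mem_coe, hS] at hs
    obtain ⟨e, he, rfl⟩ := hs
    exact hf e ⟨he, hsH⟩
  -- triangle-free contractions and few covers
  have htf : ∀ X : Finset V, X ⊆ S → TriFree S (Submodule.span K (X : Set V)) := by
    intro X hX
    by_contra hno
    obtain ⟨N, hN, h1⟩ := minor_of_not_triFree hv hS hX hno
    obtain ⟨h2, h3, h4⟩ := hcon N hN
    exact h1.elim h3 h4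
  have hD : ∀ X : Finset V, X ⊆ S → finrank K (V ⧸ Submodule.span K (X : Set V)) = 2 →
      (cov S (Submodule.span K (X : Set V))).card ≤ Fintype.card K := by
    intro X hX hdim
    by_contra hno
    push Not at hno
    obtain ⟨N, hN, h1⟩ := minor_of_cov hv hS hX hdim (n := Fintype.card K + 1) (by omega) hno
    exact (hcon N hN).1 h1
  -- the flat `F`
  have hFfin : F.Finite := hM.finite.subset hFE.subset
  set X0 : Finset V := hFfin.toFinset.image v with hX0def
  have hX0 : (X0 : Set V) = v '' F := by
    rw [hX0def, Finset.coe_image, Set.Finite.coe_toFinset]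
  have hX0S : X0 ⊆ S := by
    intro s hs
    rw [← Finset.mem_coe, hX0] at hs
    rw [← Finset.mem_coe, hS]
    exact image_mono hFE.subset hs
  obtain ⟨C, hC⟩ := M.exists_isBasis F hFE.subset
  have hspanC : Submodule.span K (v '' C) = Submodule.span K (v '' F) := by
    refine le_antisymm (Submodule.span_mono (image_mono hC.subset)) ?_
    rw [Submodule.span_le]
    rintro _ ⟨e, he, rfl⟩
    by_contra hne
    have heC : e ∉ C := fun h => hne (Submodule.subset_span ⟨e, h, rfl⟩)
    refine heC (hC.mem_of_insert_indep he ?_)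
    rw [hv, linearIndepOn_insert heC]
    exact ⟨insert_subset (hFE.subset he) (hC.subset.trans hFE.subset),
      ((hv C).1 hC.indep).2, hne⟩
  set W : Submodule K V := Submodule.span K (v '' C) with hW
  have hX0W : Submodule.span K (X0 : Set V) = W := by rw [hX0, ← hspanC]
  -- independence in the contraction
  have hcontr : ∀ J : Set α, (M ／ F).Indep J → LinearIndepOn K (W.mkQ ∘ v) J := by
    intro J hJ
    rw [hC.contract_indep_iff] at hJ
    have hd : Disjoint C J := disjoint_of_subset_left hC.subset hJ.2
    rw [((hv C).1 hC.indep).2.quotient_iff_union hd, union_comm]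
    exact ((hv _).1 hJ.1).2
  -- rank of the quotient
  obtain ⟨B, hB, hCB⟩ := hC.indep.exists_isBase_superset
  have hBfin : B.Finite := hM.finite.subset hB.subset_ground
  have hBspan : Submodule.span K (v '' B) = ⊤ := by
    rw [eq_top_iff, ← hspan, Submodule.span_le, hS]
    rintro _ ⟨e, he, rfl⟩
    by_contra hne
    have heB : e ∉ B := fun h => hne (Submodule.subset_span ⟨e, h, rfl⟩)
    refine heB (hB.mem_of_insert_indep ?_)
    rw [hv, linearIndepOn_insert heB]
    exact ⟨insert_subset he hB.subset_ground, ((hv B).1 hB.indep).2, hne⟩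
  have hfr : ∀ (I : Set α), I.Finite → LinearIndepOn K v I →
      finrank K (Submodule.span K (v '' I)) = I.ncard := by
    intro I hI hind
    have : Fintype I := hI.fintype
    rw [image_eq_range, finrank_span_eq_card hind, Fintype.card_eq_nat_card, Nat.card_coe_set_eq]
  have hdimV : finrank K V = B.ncard := by
    rw [← hfr B hBfin ((hv B).1 hB.indep).2, hBspan, finrank_top]
  have hdimW : finrank K W = C.ncard :=
    hfr C (hBfin.subset hCB) ((hv C).1 hC.indep).2
  have hquot := Submodule.finrank_quotient_add_finrank W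
  have hDind : (M ／ F).Indep (B \ C) := by
    rw [hC.contract_indep_iff, sdiff_union_of_subset hCB]
    refine ⟨hB.indep, ?_⟩
    rw [disjoint_left]
    intro e heF heD
    exact heD.2 (hC.mem_of_insert_indep heF (hB.indep.subset (insert_subset heD.1 hCB)))
  have hDcard : (B \ C).ncard ≤ 4 := by
    have h1 := hDind.encard_le_eRank.trans hFr
    have h2 : ((B \ C).ncard : ℕ∞) = (B \ C).encard :=
      (hBfin.subset sdiff_subset).cast_ncard_eq
    rw [← h2] at h1
    exact_mod_cast h1
  have hDcard' : (B \ C).ncard + C.ncard = B.ncard :=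
    ncard_sdiff_add_ncard_of_subset hCB hBfin
  obtain ⟨e₀, he₀, he₀F⟩ := exists_of_ssubset hFE
  have hne₀ : W.mkQ (v e₀) ≠ 0 := by
    have h1 := hcontr {e₀} ((hFs e₀ ⟨he₀, he₀F⟩ e₀ ⟨he₀, he₀F⟩).subset (by simp))
    exact (linearIndepOn_singleton_iff (v := W.mkQ ∘ v) K).1 h1
  refine vec_main S hspan hq hblock haff htf hD X0 hX0S ?_ ?_ ?_
  · rw [hX0W]
    have : Nontrivial (V ⧸ W) := ⟨⟨W.mkQ (v e₀), 0, hne₀⟩⟩
    exact finrank_pos
  · rw [hX0W]
    omega
  · rw [hX0W]
    intro s hs t ht hsW htW hst hmem
    rw [← Finset.mem_coe, hS] at hs ht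
    obtain ⟨a, ha, rfl⟩ := hs
    obtain ⟨b, hb, rfl⟩ := ht
    have hFW : ∀ e ∈ F, v e ∈ W := by
      intro e he
      rw [hspanC]
      exact Submodule.subset_span ⟨e, he, rfl⟩
    have h1 := hcontr {b, a} (hFs b ⟨hb, fun h => htW (hFW b h)⟩ a ⟨ha, fun h => hsW (hFW a h)⟩)
    have hba : b ∉ ({a} : Set α) := by
      intro h
      exact hst (by rw [mem_singleton_iff.1 h])
    rw [linearIndepOn_insert hba] at h1
    apply h1.2
    rw [image_singleton, Submodule.mem_span_singleton]
    obtain ⟨c, hc⟩ := (mem_sup_span_mkQ W (v b) (v a)).1 hmem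
    exact ⟨c, hc.symm⟩

end Pool.Agent.Results.MP_fdd68d_co.CorankFour
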