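import Pool.Agent.Lib.MP_fdd68d_co.Block
import Pool.Agent.Lib.MP_fdd68d_co.LogLine

/-!
# Tangential 1-blocks over large fields have a long line, `M(K₄)` or `W³` as a minor
-/

namespace Pool.Agent.Results.MP_fdd68d_co.LogLine

open Pool.Agent.Lib.MP_fdd68d_co

/-- Let `K` be a finite field with `q` elements, `a ∈ {2, 3}` and `a * 2 ^ k < q`. Every
tangential 1-block over `K` has a minor `U_{2,2k+a+2}`, `M(K₄)` or `W³`. -/
theorem result (K : Type*) [Field K] [Fintype K] {α : Type*} (M : Matroid α)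
    (hM : IsTangentialOneBlock K M) (a k : ℕ) (ha : a = 2 ∨ a = 3)
    (hak : a * 2 ^ k < Fintype.card K) :
    ∃ N : Matroid α, N ≤m M ∧ (IsUTwo (2 * k + a + 2) N ∨ IsMKFour N ∨ IsWThree N) := by
  by_contra hcon
  push Not at hcon
  obtain ⟨n, V, S, hV, hgeo, hspan, hblock, haff, htf, hD⟩ :=
    exists_config K M hM (m := 2 * k + a + 1) (by omega) hcon
  exact vec_log S hgeo hspan hV (by omega) (by omega) hak hblock haff htf hD

end Pool.Agent.Results.MP_fdd68d_co.LogLine
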